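import Pool.Agent.E8helper1.TX.JDefs
import Pool.Agent.Y121.AHS.Conv
import Pool.Agent.Y121.AH.Gop

/-!
# The twisted complex conjugation
-/

open CategoryTheory AlgebraicGeometry TensorProduct

universe u

set_option linter.unusedSectionVars false

namespace Pool.Agent.E8helper89.TX

open Module
open Pool.Agent.H914 Pool.Agent.H914.VarClass Pool.Agent.H914.VarClass.Obj
  Pool.Agent.H914.WeilCohomology
open Pool.Agent.E8helper1.TX
open Pool.Agent.Y121.AHS (HL emL smL mulL mapL grL trL Types IsType SumsTo IsDirect RespMul RespMap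
  RespCyc map_eq)
open Pool.Agent.Y121.AH (em em_add em_zero dia dia_apply ind_of_top)

variable {k : Type u} [Field k] {𝒱 : VarClass k} {ops : CycleOps 𝒱}

section points

/-- The points of the varieties have finite codimension. -/
theorem coheight_ne_top (X : SmVar k) (x : X.X) : Order.coheight x ≠ ⊤ := by
  have h1 : Smooth X.str := SmoothOfRelativeDimension.smooth X.dim X.str
  have h2 : IsLocallyNoetherian X.X := LocallyOfFiniteType.isLocallyNoetherian X.str
  have h3 : IsNoetherianRing (X.X.presheaf.stalk x) := inferInstance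
  have h4 := ringKrullDim_stalk_eq_coheight x
  have h5 : ringKrullDim (X.X.presheaf.stalk x) ≠ ⊤ := ringKrullDim_ne_top
  intro h
  rw [h4, h] at h5
  exact h5 rfl

/-- Induction on cycles. -/
theorem cycle_ind (X : SmVar k) {p : X.Cycles → Prop} (h0 : p 0)
    (hadd : ∀ z w, p z → p w → p (z + w)) (h : ∀ (j : ℕ) (z : X.Cycles), X.IsCyc j z → p z)
    (z : X.Cycles) : p z := by
  classical
  have key : ∀ z : X.X →₀ ℚ, p z := by
    intro z
    induction z using Finsupp.induction_linear with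
    | zero => exact h0
    | add z w hz hw => exact hadd _ _ hz hw
    | single x q =>
      obtain ⟨j, hj⟩ := ENat.ne_top_iff_exists.1 (coheight_ne_top X x)
      refine h j _ fun y hy => ?_
      have h1 : x = y := by
        by_contra hne
        exact hy (Finsupp.single_eq_of_ne (M := ℚ) (α := X.X) (Ne.symm hne))
      rw [← h1, ← hj]
  exact key z

end points

variable {W : WeilCohomology.{u, 0} ops} [Algebra W.K ℂ] (H : HodgeDec W) {X Y : 𝒱.Obj}

/-- The types as subspaces of the cohomology with coefficients `ℂ`. -/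
noncomputable def tp (X : 𝒱.Obj) (r : ℤ × ℤ) : Submodule (baseW W ℂ).K ((baseW W ℂ).H X) :=
  (H.pq X r.1 r.2 : Submodule ℂ (HL W ℂ X))

theorem gr_eq (X : 𝒱.Obj) (i : ℕ) : (baseW W ℂ).gr X i =
    ⨆ r : {r : ℤ × ℤ // r.1 + r.2 = i}, tp H X r.1 := H.span X i

theorem tp_le (X : 𝒱.Obj) (i : ℕ) (r : ℤ × ℤ) (h : r.1 + r.2 = i) :
    tp H X r ≤ (baseW W ℂ).gr X i := by
  rw [gr_eq]
  exact le_iSup (fun r : {r : ℤ × ℤ // r.1 + r.2 = i} => tp H X r.1) ⟨r, h⟩

theorem tp_top (X : 𝒱.Obj) : (⨆ r : ℤ × ℤ, tp H X r) = ⊤ := by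
  rw [eq_top_iff]
  intro x _
  refine gr_induction ((baseW W ℂ).isInternal X)
    (p := fun x => x ∈ ⨆ r : ℤ × ℤ, tp H X r) ?_ ?_ x
  · intro i x hx
    rw [gr_eq H] at hx
    refine (iSup_le fun r => ?_ : (⨆ r : {r : ℤ × ℤ // r.1 + r.2 = i}, tp H X r.1) ≤ _) hx
    exact le_iSup (fun r : ℤ × ℤ => tp H X r) r.1
  · intro a b ha hb
    exact Submodule.add_mem _ ha hb

theorem tp_int (X : 𝒱.Obj) : DirectSum.IsInternal fun r : ℤ × ℤ => tp H X r :=
  DirectSum.isInternal_submodule_of_iSupIndep_of_iSup_eq_top (H.indep X) (tp_top H X)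

theorem tp_ind {p : (baseW W ℂ).H X → Prop} (h : ∀ r : ℤ × ℤ, ∀ x ∈ tp H X r, p x)
    (hadd : ∀ a b, p a → p b → p (a + b)) (h0 : p 0) (x : (baseW W ℂ).H X) : p x :=
  ind_of_top (tp_top H X) h hadd h0 x

/-- The imaginary unit as a coefficient. -/
noncomputable abbrev ii (W : WeilCohomology.{u, 0} ops) [Algebra W.K ℂ] : (baseW W ℂ).K :=
  cK W Complex.I

theorem ii_ne : ii W ≠ 0 := Complex.I_ne_zero

/-- The inverse Weil operator. -/
noncomputable def wop (X : 𝒱.Obj) : Module.End (baseW W ℂ).K ((baseW W ℂ).H X) :=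
  dia (tp_int H X) fun r => (ii W) ^ (r.2 - r.1)

variable {H}

theorem wop_tp {r : ℤ × ℤ} {x : (baseW W ℂ).H X} (hx : x ∈ tp H X r) :
    wop H X x = (ii W) ^ (r.2 - r.1) • x :=
  dia_apply (tp_int H X) _ (i := r) hx

theorem tp_mul {r s : ℤ × ℤ} {x y : (baseW W ℂ).H X} (hx : x ∈ tp H X r) (hy : y ∈ tp H X s) :
    x * y ∈ tp H X (r + s) := H.mul X r.1 r.2 s.1 s.2 x y hx hy

theorem tp_map (f : X ⟶ Y) {r : ℤ × ℤ} {y : (baseW W ℂ).H Y} (hy : y ∈ tp H Y r) :
    (baseW W ℂ).map f y ∈ tp H X r := by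
  have h1 := H.map X Y f r.1 r.2 y hy
  have h2 := map_eq W ℂ f y
  exact h2 ▸ h1

theorem wop_mul (x y : (baseW W ℂ).H X) : wop H X (x * y) = wop H X x * wop H X y := by
  refine tp_ind H (p := fun x => wop H X (x * y) = wop H X x * wop H X y) ?_ ?_ ?_ x
  · intro r x hx
    refine tp_ind H (p := fun y => wop H X (x * y) = wop H X x * wop H X y) ?_ ?_ ?_ y
    · intro s y hy
      rw [wop_tp hx, wop_tp hy, wop_tp (tp_mul hx hy), smul_mul_smul_comm,
        ← zpow_add₀ ii_ne]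
      congr 2
      simp only [Prod.fst_add, Prod.snd_add]
      ring
    · intro y z hy hz; rw [mul_add, map_add, hy, hz, map_add, mul_add]
    · rw [mul_zero, map_zero, mul_zero]
  · intro x z hx hz; rw [add_mul, map_add, hx, hz, map_add, add_mul]
  · rw [zero_mul, map_zero, zero_mul]

theorem wop_map (f : X ⟶ Y) (y : (baseW W ℂ).H Y) :
    wop H X ((baseW W ℂ).map f y) = (baseW W ℂ).map f (wop H Y y) := by
  refine tp_ind H (p := fun y => wop H X ((baseW W ℂ).map f y) =
    (baseW W ℂ).map f (wop H Y y)) ?_ ?_ ?_ y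
  · intro r y hy
    rw [wop_tp hy, wop_tp (tp_map f hy), map_smul]
  · intro y z hy hz; rw [map_add, map_add, hy, hz, map_add, map_add]
  · rw [map_zero, map_zero, map_zero, map_zero]

theorem wop_tr (x : (baseW W ℂ).H X) : (baseW W ℂ).tr X (wop H X x) = (baseW W ℂ).tr X x := by
  refine tp_ind H (p := fun x => (baseW W ℂ).tr X (wop H X x) = (baseW W ℂ).tr X x) ?_ ?_ ?_ x
  · intro r x hx
    rw [wop_tp hx, map_smul]
    by_cases h : (baseW W ℂ).tr X x = 0
    · rw [h, smul_zero]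
    · have h1 : r.1 = r.2 := H.top X r.1 r.2 x hx h
      rw [h1, sub_self, zpow_zero, one_smul]
  · intro y z hy hz; rw [map_add, map_add, hy, hz, map_add]
  · rw [map_zero]

theorem wop_gr {i : ℕ} {x : (baseW W ℂ).H X} (hx : x ∈ (baseW W ℂ).gr X i) :
    wop H X x ∈ (baseW W ℂ).gr X i := by
  have hx' := hx
  rw [gr_eq H] at hx'
  refine Submodule.iSup_induction (fun r : {r : ℤ × ℤ // r.1 + r.2 = i} => tp H X r.1)
    (motive := fun x => wop H X x ∈ (baseW W ℂ).gr X i) hx' ?_ ?_ ?_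
  · intro r y hy
    rw [wop_tp hy]
    exact Submodule.smul_mem _ _ (tp_le H X i r.1 r.2 hy)
  · rw [map_zero]; exact Submodule.zero_mem _
  · intro y z hy hz
    rw [map_add]; exact Submodule.add_mem _ hy hz

theorem wop_cyc (z : X.Cycles) : wop H X (em W ℂ (W.cl X z)) = em W ℂ (W.cl X z) := by
  refine cycle_ind X.V (p := fun z => wop H X (em W ℂ (W.cl X z)) = em W ℂ (W.cl X z)) ?_ ?_ ?_ z
  · rw [map_zero, em_zero, map_zero]
  · intro z w hz hw
    rw [map_add, em_add, map_add, hz, hw]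
  · intro j z hz
    have h1 : em W ℂ (W.cl X z) ∈ tp H X ((j : ℤ), (j : ℤ)) := (H.cyc X j z hz).2
    rw [wop_tp h1, sub_self, zpow_zero, one_smul]

/-- The conjugation on the cohomology. -/
def cjB (H : HodgeDec W) (X : 𝒱.Obj) (x : (baseW W ℂ).H X) : (baseW W ℂ).H X := H.cj X x

theorem cj_tp {r : ℤ × ℤ} {x : (baseW W ℂ).H X} (hx : x ∈ tp H X r) :
    cjB H X x ∈ tp H X r.swap := H.conj.type X r.1 r.2 x hx

theorem cj_add (x y : (baseW W ℂ).H X) : cjB H X (x + y) = cjB H X x + cjB H X y :=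
  H.conj.add X x y

theorem cj_zero : cjB H X 0 = 0 := by
  have h := cj_add (H := H) (0 : (baseW W ℂ).H X) 0
  rw [add_zero] at h
  exact left_eq_add.1 h

theorem cj_map (f : X ⟶ Y) (y : (baseW W ℂ).H Y) :
    cjB H X ((baseW W ℂ).map f y) = (baseW W ℂ).map f (cjB H Y y) := by
  have h1 := map_eq W ℂ f y
  have h2 := map_eq W ℂ f (cjB H Y y)
  have h3 := H.conj.map X Y f y
  calc cjB H X ((baseW W ℂ).map f y) = cjB H X (show (baseW W ℂ).H X from
        mapL f (show HL W ℂ Y from y)) := congrArg (cjB H X) h1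
    _ = (show (baseW W ℂ).H X from mapL f (cjB H Y y)) := h3
    _ = (baseW W ℂ).map f (cjB H Y y) := h2.symm

theorem cj_gr {i : ℕ} {x : (baseW W ℂ).H X} (hx : x ∈ (baseW W ℂ).gr X i) :
    cjB H X x ∈ (baseW W ℂ).gr X i := by
  have hx' := hx
  rw [gr_eq H] at hx'
  refine Submodule.iSup_induction (fun r : {r : ℤ × ℤ // r.1 + r.2 = i} => tp H X r.1)
    (motive := fun x => cjB H X x ∈ (baseW W ℂ).gr X i) hx' ?_ ?_ ?_
  · intro r y hy
    have h1 : (r.1.swap).1 + (r.1.swap).2 = i := by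
      rw [Prod.fst_swap, Prod.snd_swap, add_comm]
      exact r.2
    exact tp_le H X i r.1.swap h1 (cj_tp hy)
  · rw [cj_zero]; exact Submodule.zero_mem _
  · intro y z hy hz
    rw [cj_add]; exact Submodule.add_mem _ hy hz

/-- The identity as a ring homomorphism. -/
noncomputable def idK (W : WeilCohomology.{u, 0} ops) [Algebra W.K ℂ] : ℂ →+* (baseW W ℂ).K :=
  RingHom.id ℂ

theorem ii_pow (n : ℤ) : (ii W) ^ n = cK W (Complex.I ^ n) := by
  have h1 : (idK W Complex.I) ^ n = idK W (Complex.I ^ n) := (map_zpow₀ (idK W) Complex.I n).symm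
  exact h1

theorem t_HDG : S_HDG := by
  intro k _ 𝒱 ops W _ H
  refine ⟨{
    J := fun Y x => wop H Y (cjB H Y x)
    map_add := fun Y x y => by rw [cj_add, map_add]
    map_smul := fun Y c x => ?_
    map_mul := fun Y x y => ?_
    map_pull := fun Y Z f x => by rw [cj_map, wop_map]
    map_tr := fun Y x => ?_
    map_cyc := fun Y z => ?_
    map_gr := fun Y i x hx => wop_gr (cj_gr hx) }, ?_⟩
  · have h1 : cjB H Y (c • x) = cK W (cc c) • cjB H Y x := H.conj.smul Y c x
    rw [h1, map_smul]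
  · have h1 : cjB H Y (x * y) = cjB H Y x * cjB H Y y := H.conj.mul Y x y
    rw [h1, wop_mul]
  · rw [wop_tr]
    exact H.conj.tr Y x
  · have h1 : cjB H Y (em W ℂ (W.cl Y z)) = em W ℂ (W.cl Y z) := H.conj.cyc Y z
    rw [h1, wop_cyc]
  · intro X p q x hx
    have h1 : cjB H X x ∈ tp H X (q, p) := H.conj.type X p q x hx
    have h2 : wop H X (cjB H X x) = cK W (Complex.I ^ (p - q)) • cjB H X x := by
      rw [wop_tp h1, ii_pow]
    exact h2

end Pool.Agent.E8helper89.TX
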