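import Pool.Agent.E8helper1.TX.JDefs
import Pool.Agent.Y121.AH.Alg2

/-!
# The operators given by cycles commute with the twisted conjugation
-/

open CategoryTheory AlgebraicGeometry

universe u

set_option linter.unusedSectionVars false

namespace Pool.Agent.E8helper89.TX

open Module
open Pool.Agent.H914 Pool.Agent.H914.VarClass Pool.Agent.H914.VarClass.Obj
  Pool.Agent.H914.WeilCohomology
open Pool.Agent.E8helper1.TX
open Pool.Agent.Y121.AH (em em_add em_zero ex em_smul em_mul em_map em_push em_cl em_injective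
  em_corr em_xp)
open Pool.Agent.Y133.Half (xp xp_def)
open Pool.Agent.Y129 (pw word word_succ)

variable {k : Type u} [Field k] {𝒱 : VarClass k} {ops : CycleOps 𝒱}
  {W : WeilCohomology.{u, 0} ops} [Algebra W.K ℂ] (T : TwConj W) {X Y Z : 𝒱.Obj}

theorem J_zero : T.J X 0 = 0 := by
  have h := T.map_add X 0 0
  rw [add_zero] at h
  exact (left_eq_add.1 h)

theorem J_sum {α : Type} (s : Finset α) (f : α → (baseW W ℂ).H X) :
    T.J X (∑ a ∈ s, f a) = ∑ a ∈ s, T.J X (f a) := by
  classical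
  induction s using Finset.induction_on with
  | empty => rw [Finset.sum_empty, Finset.sum_empty, J_zero]
  | insert a s ha ih => rw [Finset.sum_insert ha, Finset.sum_insert ha, T.map_add, ih]

theorem J_inj {x : (baseW W ℂ).H X} (h : T.J X x = 0) : x = 0 := by
  apply (baseW W ℂ).nondeg
  intro b
  have h1 := T.map_tr X (x * b)
  rw [T.map_mul, h, zero_mul, map_zero] at h1
  exact (map_eq_zero cc).1 (show cc ((baseW W ℂ).tr X (x * b)) = (0 : ℂ) from h1.symm)

/-- The square of the twisted conjugation. -/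
noncomputable def J2 (X : 𝒱.Obj) : (baseW W ℂ).H X →ₗ[(baseW W ℂ).K] (baseW W ℂ).H X where
  toFun x := T.J X (T.J X x)
  map_add' x y := by rw [T.map_add, T.map_add]
  map_smul' c x := by
    rw [T.map_smul, T.map_smul, RingHom.id_apply]
    have h : cK W (cc (cK W (cc c))) = c := RingHomCompTriple.comp_apply (σ₁₂ := cc) (σ₂₃ := cc) (x := (c : ℂ))
    rw [h]

theorem J_surj (y : (baseW W ℂ).H X) : ∃ x, T.J X x = y := by
  have h1 : Function.Injective (J2 T X) := by
    rw [← LinearMap.ker_eq_bot, LinearMap.ker_eq_bot']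
    intro x hx
    exact J_inj T (J_inj T hx)
  obtain ⟨z, hz⟩ := (LinearMap.injective_iff_surjective.1 h1) y
  exact ⟨_, hz⟩

theorem J_push (f : X ⟶ Y) (x : (baseW W ℂ).H X) :
    T.J Y ((baseW W ℂ).push f x) = (baseW W ℂ).push f (T.J X x) := by
  apply (baseW W ℂ).tr_ext
  intro b'
  obtain ⟨b, rfl⟩ := J_surj T b'
  rw [← T.map_mul, T.map_tr, (baseW W ℂ).tr_push, (baseW W ℂ).tr_push, ← T.map_pull,
    ← T.map_mul, T.map_tr]

theorem J_corr (z : (X.prod Z).Cycles) (x : (baseW W ℂ).H X) :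
    T.J Z ((baseW W ℂ).corr (em W ℂ (W.cl _ z)) x) =
      (baseW W ℂ).corr (em W ℂ (W.cl _ z)) (T.J X x) := by
  rw [corr_apply, corr_apply, J_push, T.map_mul, T.map_cyc, T.map_pull]

theorem J_xp (x : (baseW W ℂ).H X) (y : (baseW W ℂ).H Y) :
    T.J _ (xp (baseW W ℂ) x y) = xp (baseW W ℂ) (T.J X x) (T.J Y y) := by
  rw [xp_def, xp_def, T.map_mul, T.map_pull, T.map_pull]

section words

variable {ι : Type} [Fintype ι] [DecidableEq ι] (v : Basis ι W.K (W.H X)) (jm : Matrix ι ι ℂ)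

theorem wb_zero (x : Fin 1 → ι) : (wb v 0 x : W.H (pw X 0)) = (v (x 0) : W.H X) := by
  rw [wb_apply]
  have h1 : word v 0 x = (List.ofFn fun i : Fin 1 => W.map (𝟙 X) (v (x i))).prod := rfl
  rw [h1]
  have h3 : (List.ofFn fun i : Fin 1 => W.map (𝟙 X) (v (x i))) = [v (x 0)] := by
    simp only [List.ofFn_succ, List.ofFn_zero]
    rw [W.map_id]
  rw [h3]
  exact mul_one _

theorem J_wb (hj : ∀ i, T.J X (em W ℂ (v i)) = ∑ l, cK W (jm l i) • em W ℂ (v l)) :
    ∀ (n : ℕ) (I : Fin (n + 1) → ι), T.J (pw X n) (em W ℂ (wb v n I)) =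
      ∑ L : Fin (n + 1) → ι, cK W (tpow jm (n + 1) L I) • em W ℂ (wb v n L)
  | 0, I => by
    have h1 : T.J (pw X 0) (em W ℂ (wb v 0 I)) = T.J X (em W ℂ (v (I 0))) := by
      rw [wb_zero]; rfl
    rw [h1, hj]
    refine Fintype.sum_equiv (Equiv.funUnique (Fin 1) ι).symm _ _ fun l => ?_
    have h2 : tpow jm 1 ((Equiv.funUnique (Fin 1) ι).symm l) I = jm l (I 0) := by
      rw [tpow, Fin.prod_univ_one]
      rfl
    have h3 : (wb v 0 ((Equiv.funUnique (Fin 1) ι).symm l) : W.H (pw X 0)) = (v l : W.H X) :=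
      wb_zero v _
    rw [h3]
    change _ = cK W (tpow jm 1 ((Equiv.funUnique (Fin 1) ι).symm l) I) • em W ℂ (v l)
    rw [h2]
  | n + 1, I => by
    have h1 : T.J (pw X (n + 1)) (em W ℂ (wb v (n + 1) I)) =
        xp (baseW W ℂ) (T.J X (em W ℂ (v (I 0))))
          (T.J (pw X n) (em W ℂ (wb v n fun i => I i.succ))) := by
      rw [wb_succ]
      refine (congrArg (T.J (X.prod (pw X n))) (em_xp _ _)).trans ?_
      exact J_xp T _ _
    rw [h1, hj, J_wb hj n, xp_def, map_sum, map_sum, Finset.sum_mul_sum, ← Fintype.sum_prod_type']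
    refine Fintype.sum_equiv (Fin.consEquiv fun _ => ι) _ _ fun p => ?_
    have h2 : tpow jm (n + 1 + 1) (Fin.cons p.1 p.2 : Fin (n + 2) → ι) I =
        jm p.1 (I 0) * tpow jm (n + 1) p.2 fun i => I i.succ := by
      rw [tpow, tpow, Fin.prod_univ_succ]
      rfl
    change _ = cK W (tpow jm (n + 1 + 1) (Fin.cons p.1 p.2 : Fin (n + 2) → ι) I) •
      em W ℂ (wb v (n + 1) (Fin.cons p.1 p.2 : Fin (n + 2) → ι))
    rw [h2, ← wb_cons]
    have h3 : em W ℂ (xp W (v p.1) (wb v n p.2)) =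
      xp (baseW W ℂ) (em W ℂ (v p.1)) (em W ℂ (wb v n p.2)) := em_xp _ _
    rw [map_smul, map_smul, smul_mul_smul_comm]
    exact congrArg (fun t => (cK W (jm p.1 (I 0)) *
      cK W (tpow jm (n + 1) p.2 fun i => I i.succ)) • t) h3.symm

theorem em_indep (n : ℕ) (a b : (Fin (n + 1) → ι) → ℂ)
    (h : ∑ L, cK W (a L) • em W ℂ (wb v n L) = ∑ L, cK W (b L) • em W ℂ (wb v n L)) : a = b := by
  have key : ∀ a : (Fin (n + 1) → ι) → ℂ, ∑ L, cK W (a L) • em W ℂ (wb v n L) =
      ∑ L, a L • ((wb v n).baseChange ℂ) L := by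
    intro a
    refine Finset.sum_congr rfl fun L _ => ?_
    rw [Basis.baseChange_apply]
    rfl
  rw [key, key] at h
  have h2 := congrArg ((wb v n).baseChange ℂ).repr h
  funext L
  have h3 := DFunLike.congr_fun h2 L
  rw [Basis.repr_sum_self, Basis.repr_sum_self] at h3
  exact h3

theorem em_op (n : ℕ) (A : Module.End W.K (W.H (pw X n))) (J : Fin (n + 1) → ι) :
    em W ℂ (A (wb v n J)) = ∑ I, cK W (mc v n A I J) • em W ℂ (wb v n I) := by
  conv_lhs => rw [← (wb v n).sum_repr (A (wb v n J))]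
  have h1 : ∀ s : Finset (Fin (n + 1) → ι), em W ℂ (∑ I ∈ s,
      (wb v n).repr (A (wb v n J)) I • wb v n I) =
      ∑ I ∈ s, cK W (mc v n A I J) • em W ℂ (wb v n I) := by
    intro s
    induction s using Finset.induction_on with
    | empty => rw [Finset.sum_empty, Finset.sum_empty, em_zero]
    | insert a s ha ih =>
      rw [Finset.sum_insert ha, Finset.sum_insert ha, em_add, ih, em_smul, mc_apply]
      rfl
  exact h1 _

end words

theorem t_STARJ : S_STARJ := by
  intro k _ 𝒱 ops W _ T X ι _ _ v jm hj n z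
  set A : Module.End W.K (W.H (pw X n)) := W.corr (W.cl _ z) with hA
  have hJ : ∀ y : W.H (pw X n), T.J (pw X n) (em W ℂ (A y)) =
      (baseW W ℂ).corr (em W ℂ (W.cl _ z)) (T.J (pw X n) (em W ℂ y)) := by
    intro y
    rw [hA, ← em_corr, J_corr]
  ext L J
  rw [Matrix.mul_apply, Matrix.mul_apply]
  have h1 := hJ (wb v n J)
  rw [em_op, J_sum, J_wb T v jm hj, map_sum] at h1
  have h2 : ∑ I, T.J (pw X n) (cK W (mc v n A I J) • em W ℂ (wb v n I)) =
      ∑ L, cK W (∑ I, tpow jm (n + 1) L I * cc (mc v n A I J)) • em W ℂ (wb v n L) := by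
    have h3 : ∀ I, T.J (pw X n) (cK W (mc v n A I J) • em W ℂ (wb v n I)) =
        ∑ L, (cK W (tpow jm (n + 1) L I * cc (mc v n A I J))) • em W ℂ (wb v n L) := by
      intro I
      rw [T.map_smul, J_wb T v jm hj, Finset.smul_sum]
      refine Finset.sum_congr rfl fun L _ => ?_
      rw [smul_smul, mul_comm (tpow jm (n + 1) L I)]
      rfl
    rw [Finset.sum_congr rfl fun I _ => h3 I, Finset.sum_comm]
    refine Finset.sum_congr rfl fun L _ => ?_
    rw [← Finset.sum_smul]
    rfl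
  have h4 : ∑ I, (baseW W ℂ).corr (em W ℂ (W.cl _ z))
      (cK W (tpow jm (n + 1) I J) • em W ℂ (wb v n I)) =
      ∑ L, cK W (∑ I, mc v n A L I * tpow jm (n + 1) I J) • em W ℂ (wb v n L) := by
    have h3 : ∀ I, (baseW W ℂ).corr (em W ℂ (W.cl _ z))
        (cK W (tpow jm (n + 1) I J) • em W ℂ (wb v n I)) =
        ∑ L, (cK W (mc v n A L I * tpow jm (n + 1) I J)) • em W ℂ (wb v n L) := by
      intro I
      rw [map_smul, em_corr]
      have h5 : em W ℂ (W.corr (W.cl _ z) (wb v n I)) = em W ℂ (A (wb v n I)) := rfl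
      rw [h5, em_op, Finset.smul_sum]
      refine Finset.sum_congr rfl fun L _ => ?_
      rw [smul_smul, mul_comm (mc v n A L I)]
      rfl
    rw [Finset.sum_congr rfl fun I _ => h3 I, Finset.sum_comm]
    refine Finset.sum_congr rfl fun L _ => ?_
    rw [← Finset.sum_smul]
    rfl
  rw [h2, h4] at h1
  have h6 := congrFun (em_indep v n _ _ h1) L
  exact h6.symm

end Pool.Agent.E8helper89.TX
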