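import Pool.Agent.E8helper89.TX.Hop2

/-!
# The operator `p - q` is skew for the pairing
-/

open CategoryTheory AlgebraicGeometry TensorProduct

universe u

set_option linter.unusedSectionVars false

namespace Pool.Agent.E8helper89.TX

open Module
open Pool.Agent.H914 Pool.Agent.H914.VarClass Pool.Agent.H914.VarClass.Obj
  Pool.Agent.H914.WeilCohomology
open Pool.Agent.E8helper1.TX
open Pool.Agent.Y121.AH (HodgeTheory hodgeSys IsHodge CW isInternal pq_ind em)
open Pool.Agent.Y129 (pw word word_succ)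

variable {k : Type u} [Field k] {𝒱 : VarClass k} {ops : CycleOps 𝒱} {T : HodgeTheory ops}
  {X : 𝒱.Obj} {ι : Type} [Fintype ι] [DecidableEq ι] (v : Basis ι T.W.K (T.W.H X))

theorem tr_hop (hT : Top T) (x : (CW T).H X) : (CW T).tr X (hop T X x) = 0 := by
  refine pq_ind T (p := fun x => (CW T).tr X (hop T X x) = 0) ?_ ?_ ?_ x
  · intro p q x hx
    rw [hop_pq hx, map_smul]
    by_cases h : (CW T).tr X x = 0
    · rw [h, smul_zero]
    · rw [hT X p q x hx h, sub_self, Int.cast_zero, zero_smul]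
  · intro y z hy hz; rw [map_add, map_add, hy, hz, add_zero]
  · rw [map_zero, map_zero]

theorem hmat_skew (hT : Top T) : (hmat v).transpose * BC v = -(BC v * hmat v) := by
  ext i j
  have h1 : (CW T).tr X (hop T X (em T.W ℂ (v i)) * em T.W ℂ (v j)) +
      (CW T).tr X (em T.W ℂ (v i) * hop T X (em T.W ℂ (v j))) = 0 := by
    rw [← map_add, ← hop_mul, tr_hop hT]
  have hs : ∀ i, hop T X (em T.W ℂ (v i)) = ∑ l, cK T.W (hmat v l i) • em T.W ℂ (v l) :=
    fun i => mC_spec (W := T.W) v (hop T X) i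
  have h2 : (CW T).tr X (hop T X (em T.W ℂ (v i)) * em T.W ℂ (v j)) =
      ∑ l, cK T.W (hmat v l i * BC v l j) := by
    rw [hs, Finset.sum_mul, map_sum]
    refine Finset.sum_congr rfl fun l _ => ?_
    rw [smul_mul_assoc, map_smul, tr_em_mul, smul_eq_mul]
    rfl
  have h3 : (CW T).tr X (em T.W ℂ (v i) * hop T X (em T.W ℂ (v j))) =
      ∑ l, cK T.W (BC v i l * hmat v l j) := by
    rw [hs, Finset.mul_sum, map_sum]
    refine Finset.sum_congr rfl fun l _ => ?_
    rw [mul_smul_comm, map_smul, tr_em_mul, smul_eq_mul]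
    exact mul_comm (hmat v l j) (BC v i l)
  rw [h2, h3] at h1
  have h4 : (∑ l, hmat v l i * BC v l j) + ∑ l, BC v i l * hmat v l j = (0 : ℂ) := h1
  rw [Matrix.neg_apply, Matrix.mul_apply, Matrix.mul_apply]
  simp only [Matrix.transpose_apply]
  exact eq_neg_of_add_eq_zero_left h4

/-- **Piece HOP**, with the additional property. -/
theorem t_HOP2 : S_HOP2.{u} := by
  intro k _ 𝒱 ops T hE hT X ι _ _ v dg hv
  refine ⟨hmat v, fun n a => hop_op v n a, fun μ u hu h => hmat_eig v hE hT hu h,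
    fun D hD => hmat_div v D hD, fun i j h => hmat_deg v hv i j h, hmat_skew v hT⟩

end Pool.Agent.E8helper89.TX
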