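import Pool.Agent.E8helper1.TX.HDefs
import Pool.Agent.E8helper89.TX.Starj

/-!
# The operator which is multiplication by `p - q` on the classes of type `(p, q)`
-/

open CategoryTheory AlgebraicGeometry TensorProduct

universe u

set_option linter.unusedSectionVars false

namespace Pool.Agent.E8helper89.TX

open Module
open Pool.Agent.H914 Pool.Agent.H914.VarClass Pool.Agent.H914.VarClass.Obj
  Pool.Agent.H914.WeilCohomology
open Pool.Agent.E8helper1.TX
open Pool.Agent.Y121.AH (HodgeTheory hodgeSys IsHodge CW isInternal pq_ind pq_ind_nat dia dia_apply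
  gop gop_pq isHodge_of_fix hodgePred em em_add em_zero ex em_smul em_mul em_map em_push em_cl
  em_injective em_corr em_xp em_gr tmul_ind tmul_eq)
open Pool.Agent.Y133.Half (xp xp_def Sys ClassPred)
open Pool.Agent.Y133.Half.Sys (mem_Op)
open Pool.Agent.Y129 (pw word word_succ)

variable {k : Type u} [Field k] {𝒱 : VarClass k} {ops : CycleOps 𝒱} (T : HodgeTheory ops)
  {X Y Z : 𝒱.Obj}

/-- The multiplication by `p - q` on the classes of type `(p, q)`. -/
noncomputable def hop (X : 𝒱.Obj) : Module.End (CW T).K ((CW T).H X) :=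
  dia (isInternal T X) fun r => ((r.1 - r.2 : ℤ) : (CW T).K)

variable {T}

theorem hop_pq {p q : ℤ} {x : (CW T).H X} (hx : x ∈ T.pq X p q) :
    hop T X x = ((p - q : ℤ) : (CW T).K) • x :=
  dia_apply (isInternal T X) _ (i := (p, q)) hx

theorem hop_mul (x y : (CW T).H X) : hop T X (x * y) = hop T X x * y + x * hop T X y := by
  refine pq_ind T (p := fun x => hop T X (x * y) = hop T X x * y + x * hop T X y) ?_ ?_ ?_ x
  · intro a b x hx
    refine pq_ind T (p := fun y => hop T X (x * y) = hop T X x * y + x * hop T X y) ?_ ?_ ?_ y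
    · intro c d y hy
      rw [hop_pq hx, hop_pq hy, hop_pq (T.dec.mul hx hy), smul_mul_assoc, mul_smul_comm,
        ← add_smul, ← Int.cast_add]
      congr 2
      ring
    · intro y z hy hz; rw [mul_add, map_add, hy, hz, map_add, mul_add, mul_add]; abel
    · rw [mul_zero, map_zero, mul_zero, mul_zero, add_zero]
  · intro x z hx hz; rw [add_mul, map_add, hx, hz, map_add, add_mul, add_mul]; abel
  · rw [zero_mul, map_zero, zero_mul, zero_mul, add_zero]

theorem hop_map (f : X ⟶ Y) (y : (CW T).H Y) :
    hop T X ((CW T).map f y) = (CW T).map f (hop T Y y) := by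
  refine pq_ind T (p := fun y => hop T X ((CW T).map f y) = (CW T).map f (hop T Y y)) ?_ ?_ ?_ y
  · intro a b y hy
    rw [hop_pq hy, hop_pq (T.dec.map f hy), map_smul]
  · intro y z hy hz; rw [map_add, map_add, hy, hz, map_add, map_add]
  · rw [map_zero, map_zero, map_zero, map_zero]

theorem hop_push (f : X ⟶ Y) (x : (CW T).H X) :
    hop T Y ((CW T).push f x) = (CW T).push f (hop T X x) := by
  refine pq_ind T (p := fun x => hop T Y ((CW T).push f x) = (CW T).push f (hop T X x))
    ?_ ?_ ?_ x
  · intro a b x hx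
    rw [hop_pq hx, hop_pq (T.dec.push f hx), map_smul]
    congr 2
    ring
  · intro y z hy hz; rw [map_add, map_add, hy, hz, map_add, map_add]
  · rw [map_zero, map_zero, map_zero, map_zero]

theorem hop_corr (c : (CW T).H (X.prod Z)) (x : (CW T).H X) :
    hop T Z ((CW T).corr c x) = (CW T).corr (hop T _ c) x + (CW T).corr c (hop T X x) := by
  rw [corr_apply, corr_apply, corr_apply, hop_push, hop_mul, hop_map, map_add]

theorem hop_hodge {j : ℕ} {c : T.W.H X} (hc : IsHodge T X j c) : hop T X (em T.W ℂ c) = 0 := by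
  rw [hop_pq hc.2, sub_self, Int.cast_zero, zero_smul]

theorem hop_em_gr {i : ℕ} {c : T.W.H X} (hc : c ∈ T.W.gr X i) :
    hop T X (em T.W ℂ c) ∈ (CW T).gr X i := by
  refine Submodule.iSup_induction (fun r : {r : ℤ × ℤ // r.1 + r.2 = i} => T.pq X r.1.1 r.1.2)
    (motive := fun x => hop T X x ∈ (CW T).gr X i) (T.dec.span hc) ?_ ?_ ?_
  · intro r x hx
    rw [hop_pq hx]
    exact Submodule.smul_mem _ _ (T.dec.le X r.2 hx)
  · rw [map_zero]; exact Submodule.zero_mem _
  · intro x y hx hy; rw [map_add]; exact Submodule.add_mem _ hx hy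

theorem int_ne {a : ℤ} (h : a ≠ 0) : ((a : ℤ) : (CW T).K) ≠ 0 := by
  intro h1
  have h2 : ((a : ℤ) : ℂ) = 0 := h1
  exact h (by exact_mod_cast h2)

/-- The difference between the identity and the operator `2 ^ (p - q)`. -/
theorem gop_of_hop {x : (CW T).H X} (h : hop T X x = 0) : gop T X x = x := by
  classical
  set N : Module.End (CW T).K ((CW T).H X) := dia (isInternal T X) fun r =>
    if r.1 = r.2 then 0 else ((2 : (CW T).K) ^ (r.1 - r.2) - 1) * ((r.1 - r.2 : ℤ) : (CW T).K)⁻¹
    with hN
  have h1 : ∀ x, gop T X x = x + N (hop T X x) := by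
    intro x
    refine pq_ind T (p := fun x => gop T X x = x + N (hop T X x)) ?_ ?_ ?_ x
    · intro a b x hx
      rw [gop_pq hx, hop_pq hx, map_smul, hN, dia_apply (isInternal T X) _ (i := (a, b)) hx]
      by_cases hab : a = b
      · simp [hab]
      · simp only [if_neg hab]
        have h2 : ((a - b : ℤ) : (CW T).K) ≠ 0 := int_ne (sub_ne_zero.2 hab)
        rw [smul_smul]
        have h3 : ((a - b : ℤ) : (CW T).K) * (((2 : (CW T).K) ^ (a - b) - 1) *
            ((a - b : ℤ) : (CW T).K)⁻¹) = (2 : (CW T).K) ^ (a - b) - 1 := by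
          rw [mul_comm, mul_assoc, inv_mul_cancel₀ h2, mul_one]
        rw [h3, sub_smul, one_smul]
        abel
    · intro a b ha hb
      rw [map_add, map_add, map_add, ha, hb]
      abel
    · simp
  rw [h1 x, h, map_zero, add_zero]

/-- A class of odd degree killed by the operator is zero. -/
theorem zero_of_hop {i : ℕ} (hi : ∀ j, i ≠ 2 * j) {x : (CW T).H X}
    (hx : x ∈ ⨆ r : {r : ℤ × ℤ // r.1 + r.2 = i}, T.pq X r.1.1 r.1.2)
    (h : hop T X x = 0) : x = 0 := by
  classical
  set N : Module.End (CW T).K ((CW T).H X) := dia (isInternal T X) fun r =>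
    if r.1 = r.2 then 0 else ((r.1 - r.2 : ℤ) : (CW T).K)⁻¹ with hN
  set E : Module.End (CW T).K ((CW T).H X) := dia (isInternal T X) fun r =>
    if r.1 = r.2 then 1 else 0 with hE
  have h1 : ∀ x, N (hop T X x) + E x = x := by
    intro x
    refine pq_ind T (p := fun x => N (hop T X x) + E x = x) ?_ ?_ ?_ x
    · intro a b x hx
      rw [hop_pq hx, map_smul, hN, hE, dia_apply (isInternal T X) _ (i := (a, b)) hx,
        dia_apply (isInternal T X) _ (i := (a, b)) hx]
      by_cases hab : a = b
      · simp [hab]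
      · simp only [if_neg hab, zero_smul, add_zero]
        have h2 : ((a - b : ℤ) : (CW T).K) ≠ 0 := int_ne (sub_ne_zero.2 hab)
        rw [smul_smul, mul_inv_cancel₀ h2, one_smul]
    · intro a b ha hb
      calc N (hop T X (a + b)) + E (a + b)
          = (N (hop T X a) + E a) + (N (hop T X b) + E b) := by
            simp only [map_add]; abel
        _ = a + b := by rw [ha, hb]
    · simp
  have h2 := h1 x
  rw [h, map_zero, zero_add] at h2
  rw [← h2]
  refine Submodule.iSup_induction
    (fun r : {r : ℤ × ℤ // r.1 + r.2 = i} => T.pq X r.1.1 r.1.2)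
    (motive := fun x => E x = 0) hx ?_ ?_ ?_
  · rintro ⟨⟨a, b⟩, hr⟩ x hx
    rw [hE, dia_apply (isInternal T X) _ (i := (a, b)) hx]
    have hab : a ≠ b := by
      rintro rfl
      have h4 : a + a = (i : ℤ) := hr
      exact hi a.toNat (by omega)
    simp [hab]
  · rw [map_zero]
  · intro x y hx hy; rw [map_add, hx, hy, add_zero]

theorem em_proj (i : ℕ) (c : T.W.H X) : em T.W ℂ (H914.proj (T.W.isInternal X) i c) =
    H914.proj ((CW T).isInternal X) i (em T.W ℂ c) := by
  refine gr_induction (T.W.isInternal X) (p := fun c =>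
    em T.W ℂ (H914.proj (T.W.isInternal X) i c) =
    H914.proj ((CW T).isInternal X) i (em T.W ℂ c)) ?_ ?_ c
  · intro j c hc
    by_cases hij : j = i
    · subst hij
      rw [proj_same _ hc, proj_same _ (em_gr hc)]
    · rw [proj_ne _ hc hij, proj_ne _ (em_gr hc) hij, em_zero]
  · intro a b ha hb
    rw [map_add, em_add, em_add, map_add, ha, hb]

theorem hop_proj (i : ℕ) (x : T.W.H X) : hop T X (H914.proj ((CW T).isInternal X) i (em T.W ℂ x)) =
    H914.proj ((CW T).isInternal X) i (hop T X (em T.W ℂ x)) := by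
  refine gr_induction (T.W.isInternal X) (p := fun x =>
    hop T X (H914.proj ((CW T).isInternal X) i (em T.W ℂ x)) =
    H914.proj ((CW T).isInternal X) i (hop T X (em T.W ℂ x))) ?_ ?_ x
  · intro j x hx
    by_cases hij : j = i
    · subst hij
      rw [proj_same _ (em_gr hx), proj_same _ (hop_em_gr hx)]
    · rw [proj_ne _ (em_gr hx) hij, proj_ne _ (hop_em_gr hx) hij, map_zero]
  · intro a b ha hb
    rw [em_add, map_add, map_add, ha, hb, map_add, map_add]

/-- **The rational classes killed by the operator are the sums of Hodge classes.** -/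
theorem hop_iff (c : T.W.H X) : hop T X (em T.W ℂ c) = 0 ↔ c ∈ (hodgeSys T).C X := by
  constructor
  · intro h
    have h1 : ∀ i, H914.proj (T.W.isInternal X) i c ∈ (hodgePred T).sp X := by
      intro i
      have h2 : hop T X (em T.W ℂ (H914.proj (T.W.isInternal X) i c)) = 0 := by
        rw [em_proj, hop_proj, h, map_zero]
      have h3 := H914.proj_mem (T.W.isInternal X) i c
      by_cases hi : ∃ j, i = 2 * j
      · obtain ⟨j, rfl⟩ := hi
        exact ClassPred.sp_of (Q := hodgePred T) (j := j) (isHodge_of_fix h3 (gop_of_hop h2))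
      · have h4 := zero_of_hop (fun j hj => hi ⟨j, hj⟩) (T.dec.span h3) h2
        rw [em_injective h4]
        exact Submodule.zero_mem _
    have h5 : c = ∑ i ∈ Finset.range (2 * X.dim + 1), H914.proj (T.W.isInternal X) i c := by
      have h6 := scal_eq_sum (T.W.isInternal X) (N := 2 * X.dim + 1)
        (fun i hi => T.W.gr_eq_bot X _ (by omega)) (fun _ => (1 : T.W.K))
      rw [scal_one] at h6
      have h7 := LinearMap.congr_fun h6 c
      simpa only [Module.End.one_apply, LinearMap.sum_apply, one_smul] using h7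
    rw [h5]
    exact Submodule.sum_mem _ fun i _ => h1 i
  · intro h
    refine ClassPred.sp_ind (Q := hodgePred T) (q := fun c => hop T X (em T.W ℂ c) = 0) ?_ ?_ ?_ h
    · intro j x hx; exact hop_hodge hx
    · rw [em_zero, map_zero]
    · intro a b ha hb; rw [em_add, map_add, ha, hb, add_zero]

/-- The bound for the types. -/
theorem type_bound (hE : Eff T) (hT : Top T) {p q : ℤ} {x : (CW T).H X} (hx : x ∈ T.pq X p q)
    (h0 : x ≠ 0) : |p - q| ≤ X.dim := by
  obtain ⟨hp, hq⟩ := hE X p q x hx h0
  have h1 : ∃ r s : ℤ, ∃ y ∈ T.pq X r s, (CW T).tr X (x * y) ≠ 0 := by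
    by_contra hcon
    push Not at hcon
    apply h0
    apply (CW T).nondeg
    intro b
    refine pq_ind T (p := fun y => (CW T).tr X (x * y) = 0) ?_ ?_ ?_ b
    · intro r s y hy; exact hcon r s y hy
    · intro y z hy hz; rw [mul_add, map_add, hy, hz, add_zero]
    · rw [mul_zero, map_zero]
  obtain ⟨r, s, y, hy, hxy⟩ := h1
  have hy0 : y ≠ 0 := by rintro rfl; rw [mul_zero, map_zero] at hxy; exact hxy rfl
  obtain ⟨hr, hs⟩ := hE X r s y hy hy0
  have h2 := T.dec.mul hx hy
  have h3 : p + r = q + s := hT X _ _ _ h2 hxy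
  have h4 : x * y ∈ (CW T).gr X ((p + r) + (q + s)).toNat :=
    T.dec.le X (p := p + r) (q := q + s) (by omega) h2
  have h5 : ((p + r) + (q + s)).toNat = 2 * X.dim := by
    by_contra hne
    exact hxy ((CW T).tr_eq_zero h4 hne)
  rw [abs_le]
  omega

/-- The eigenvalues of the operator. -/
theorem hop_eig (hE : Eff T) (hT : Top T) {μ : ℂ} {x : (CW T).H X} (h0 : x ≠ 0)
    (h : hop T X x = cK T.W μ • x) : ∃ z : ℤ, μ = z ∧ |z| ≤ X.dim := by
  by_contra hcon
  push Not at hcon
  apply h0
  set N : Module.End (CW T).K ((CW T).H X) := dia (isInternal T X) fun r =>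
    (((r.1 - r.2 : ℤ) : (CW T).K) - cK T.W μ)⁻¹ with hN
  have h1 : ∀ x, N (hop T X x - cK T.W μ • x) = x := by
    intro x
    refine pq_ind T (p := fun x => N (hop T X x - cK T.W μ • x) = x) ?_ ?_ ?_ x
    · intro a b x hx
      rw [hop_pq hx, ← sub_smul, map_smul, hN, dia_apply (isInternal T X) _ (i := (a, b)) hx]
      by_cases hx0 : x = 0
      · rw [hx0, smul_zero, smul_zero]
      · have h2 : ((a - b : ℤ) : (CW T).K) - cK T.W μ ≠ 0 := by
          intro h3
          have h4 : ((a - b : ℤ) : ℂ) - μ = 0 := h3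
          have h5 := hcon (a - b) (sub_eq_zero.1 h4).symm
          exact absurd (type_bound hE hT hx hx0) (not_le.2 h5)
        rw [smul_smul, mul_inv_cancel₀ h2, one_smul]
    · intro a b ha hb
      calc N (hop T X (a + b) - cK T.W μ • (a + b))
          = N (hop T X a - cK T.W μ • a) + N (hop T X b - cK T.W μ • b) := by
            rw [← map_add]
            congr 1
            rw [map_add, smul_add]
            abel
        _ = a + b := by rw [ha, hb]
    · simp
  rw [← h1 x, h, sub_self, map_zero]

end Pool.Agent.E8helper89.TX
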