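import Pool.Agent.E8helper89.TX.Hop

/-!
# Hodge classes on the powers of a variety
-/

open CategoryTheory AlgebraicGeometry TensorProduct

universe u

set_option linter.unusedSectionVars false

namespace Pool.Agent.E8helper89.TX

open Module
open Pool.Agent.H914 Pool.Agent.H914.VarClass Pool.Agent.H914.VarClass.Obj
  Pool.Agent.H914.WeilCohomology
open Pool.Agent.E8helper1.TX
open Pool.Agent.Y121.AH (HodgeTheory hodgeSys IsHodge CW isInternal pq_ind pq_ind_nat dia dia_apply
  gop gop_pq isHodge_of_fix hodgePred em em_add em_zero ex em_smul em_mul em_map em_push em_cl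
  em_injective em_corr em_xp em_gr tmul_ind tmul_eq)
open Pool.Agent.Y133.Half (xp xp_def Sys ClassPred)
open Pool.Agent.Y133.Half.Sys (mem_Op)
open Pool.Agent.Y129 (pw word word_succ)

section mat

variable {k : Type u} [Field k] {𝒱 : VarClass k} {ops : CycleOps 𝒱}
  {W : WeilCohomology.{u, 0} ops} [Algebra W.K ℂ] {P : 𝒱.Obj}
  {κ : Type} [Fintype κ] [DecidableEq κ] (b : Basis κ W.K (W.H P))

/-- The matrix of an operator on the cohomology with complex coefficients. -/
noncomputable def mC (h : Module.End (baseW W ℂ).K ((baseW W ℂ).H P)) : Matrix κ κ ℂ :=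
  LinearMap.toMatrix (R := (baseW W ℂ).K) (vC b) (vC b) h

theorem mC_apply (h : Module.End (baseW W ℂ).K ((baseW W ℂ).H P)) (i j : κ) :
    mC b h i j = (vC b).repr (h (em W ℂ (b j))) i := by
  rw [← vC_apply]
  exact LinearMap.toMatrix_apply (R := (baseW W ℂ).K) (vC b) (vC b) h i j

theorem mC_mul (h h' : Module.End (baseW W ℂ).K ((baseW W ℂ).H P)) :
    mC b (h * h') = mC b h * mC b h' :=
  LinearMap.toMatrix_mul (R := (baseW W ℂ).K) (vC b) h h'

theorem mC_inj {h h' : Module.End (baseW W ℂ).K ((baseW W ℂ).H P)} (e : mC b h = mC b h') :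
    h = h' :=
  (LinearMap.toMatrix (R := (baseW W ℂ).K) (vC b) (vC b)).injective e

theorem mC_spec (h : Module.End (baseW W ℂ).K ((baseW W ℂ).H P)) (j : κ) :
    h (em W ℂ (b j)) = ∑ l, cK W (mC b h l j) • em W ℂ (b l) := by
  conv_lhs => rw [← (vC b).sum_repr (h (em W ℂ (b j)))]
  refine Finset.sum_congr rfl fun l _ => ?_
  rw [vC_apply, mC_apply]

theorem mC_of (h : Module.End (baseW W ℂ).K ((baseW W ℂ).H P)) (M : Matrix κ κ ℂ)
    (e : ∀ j, h (em W ℂ (b j)) = ∑ l, cK W (M l j) • em W ℂ (b l)) : mC b h = M := by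
  ext i j
  rw [mC_apply, e j]
  have h1 : ∑ l, cK W (M l j) • em W ℂ (b l) = ∑ l, cK W (M l j) • vC b l :=
    Finset.sum_congr rfl fun l _ => by rw [vC_apply]
  rw [h1]
  exact congrFun ((vC b).repr_sum_self fun l => cK W (M l j)) i

theorem em_sum (t : Finset κ) (c : κ → W.K) : em W ℂ (∑ l ∈ t, c l • b l) =
    ∑ l ∈ t, cK W (algebraMap W.K ℂ (c l)) • em W ℂ (b l) := by
  induction t using Finset.induction_on with
  | empty => rw [Finset.sum_empty, Finset.sum_empty, em_zero]
  | insert a t ha ih =>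
    rw [Finset.sum_insert ha, Finset.sum_insert ha, em_add, ih, em_smul]
    rfl

theorem bcO_em' (a : Module.End W.K (W.H P)) (x : W.H P) :
    bcO a (em W ℂ x) = em W ℂ (a x) := LinearMap.baseChange_tmul _ _ _

theorem mC_bcO (a : Module.End W.K (W.H P)) :
    mC b (bcO a) = (LinearMap.toMatrix b b a).map (algebraMap W.K ℂ) := by
  apply mC_of
  intro j
  rw [bcO_em']
  conv_lhs => rw [← b.sum_repr (a (b j))]
  rw [em_sum]
  refine Finset.sum_congr rfl fun l _ => ?_
  rw [Matrix.map_apply, LinearMap.toMatrix_apply]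

/-- Commutation in terms of matrices. -/
theorem comm_mat (a : Module.End W.K (W.H P)) (h : Module.End (baseW W ℂ).K ((baseW W ℂ).H P)) :
    (LinearMap.toMatrix b b a).map (algebraMap W.K ℂ) * mC b h =
      mC b h * (LinearMap.toMatrix b b a).map (algebraMap W.K ℂ) ↔
    (bcO a : Module.End (baseW W ℂ).K ((baseW W ℂ).H P)) * h = h * bcO a := by
  rw [← mC_bcO, ← mC_mul, ← mC_mul]
  exact ⟨fun e => mC_inj b e, fun e => by rw [e]⟩

end mat

section dp

variable {ι : Type} [Fintype ι] [DecidableEq ι]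

/-- The recursion for the derivation. -/
theorem dpow_cons (x : Matrix ι ι ℂ) (m : ℕ) (a : ι) (L : Fin m → ι) (I : Fin (m + 1) → ι) :
    dpow x (m + 1) (Fin.cons a L : Fin (m + 1) → ι) I =
      (if L = (fun i => I i.succ) then x a (I 0) else 0) +
        (if a = I 0 then dpow x m L (fun i => I i.succ) else 0) := by
  rw [dpow, Fin.sum_univ_succ]
  congr 1
  · have h1 : (∀ j : Fin (m + 1), j ≠ 0 → (Fin.cons a L : Fin (m + 1) → ι) j = I j) ↔
        L = fun i => I i.succ := by
      constructor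
      · intro h
        funext i
        exact h i.succ (Fin.succ_ne_zero i)
      · intro h j hj
        obtain ⟨i, rfl⟩ := Fin.exists_succ_eq.2 hj
        exact congrFun h i
    simp only [h1, Fin.cons_zero]
  · by_cases h : a = I 0
    · rw [if_pos h, dpow]
      refine Finset.sum_congr rfl fun i _ => ?_
      have h1 : (∀ j : Fin (m + 1), j ≠ i.succ → (Fin.cons a L : Fin (m + 1) → ι) j = I j) ↔
          ∀ j : Fin m, j ≠ i → L j = I j.succ := by
        constructor
        · intro h2 j hj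
          exact h2 j.succ (fun h3 => hj (Fin.succ_injective _ h3))
        · intro h2 j
          refine Fin.cases ?_ (fun j => ?_) j
          · intro _; exact h
          · intro hj; exact h2 j (fun h3 => hj (by rw [h3]))
      simp only [h1, Fin.cons_succ]
    · rw [if_neg h]
      refine Finset.sum_eq_zero fun i _ => ?_
      rw [if_neg]
      intro h2
      exact h (h2 0 (Fin.succ_ne_zero i).symm)

end dp

variable {k : Type u} [Field k] {𝒱 : VarClass k} {ops : CycleOps 𝒱} {T : HodgeTheory ops}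
  {X Y Z : 𝒱.Obj} {ι : Type} [Fintype ι] [DecidableEq ι] (v : Basis ι T.W.K (T.W.H X))

theorem hop_xp (x : (CW T).H X) (y : (CW T).H Y) : hop T _ (xp (CW T) x y) =
    xp (CW T) (hop T X x) y + xp (CW T) x (hop T Y y) := by
  rw [xp_def, xp_def, xp_def, hop_mul, hop_map, hop_map]

/-- The matrix of the operator. -/
noncomputable def hmat (v : Basis ι T.W.K (T.W.H X)) : Matrix ι ι ℂ := mC (W := T.W) v (hop T X)

theorem hop_wb : ∀ (n : ℕ) (I : Fin (n + 1) → ι), hop T (pw X n) (em T.W ℂ (wb v n I)) =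
    ∑ L : Fin (n + 1) → ι, cK T.W (dpow (hmat v) (n + 1) L I) • em T.W ℂ (wb v n L)
  | 0, I => by
    have h1 : hop T (pw X 0) (em T.W ℂ (wb v 0 I)) = hop T X (em T.W ℂ (v (I 0))) := by
      rw [wb_zero]; rfl
    rw [h1]
    have h0 := mC_spec (W := T.W) v (hop T X) (I 0)
    refine h0.trans ?_
    refine Fintype.sum_equiv (Equiv.funUnique (Fin 1) ι).symm _ _ fun l => ?_
    have h2 : dpow (hmat v) 1 ((Equiv.funUnique (Fin 1) ι).symm l) I = hmat v l (I 0) := by
      rw [dpow, Fin.sum_univ_one, if_pos]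
      · rfl
      · intro j hj
        exact absurd (Subsingleton.elim j 0) hj
    have h3 : (wb v 0 ((Equiv.funUnique (Fin 1) ι).symm l) : T.W.H (pw X 0)) =
      (v l : T.W.H X) := wb_zero v _
    rw [h3]
    change _ = cK T.W (dpow (hmat v) 1 ((Equiv.funUnique (Fin 1) ι).symm l) I) • em T.W ℂ (v l)
    rw [h2]
    rfl
  | n + 1, I => by
    have h1 : hop T (pw X (n + 1)) (em T.W ℂ (wb v (n + 1) I)) =
        xp (CW T) (hop T X (em T.W ℂ (v (I 0)))) (em T.W ℂ (wb v n fun i => I i.succ)) +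
        xp (CW T) (em T.W ℂ (v (I 0))) (hop T (pw X n) (em T.W ℂ (wb v n fun i => I i.succ))) := by
      rw [wb_succ]
      refine (congrArg (hop T (X.prod (pw X n))) (em_xp _ _)).trans ?_
      exact hop_xp _ _
    have h3 : ∀ (a : ι) (L : Fin (n + 1) → ι), xp (CW T) (em T.W ℂ (v a)) (em T.W ℂ (wb v n L)) =
        em T.W ℂ (wb v (n + 1) (Fin.cons a L : Fin (n + 2) → ι)) := by
      intro a L
      rw [← wb_cons]
      exact (em_xp _ _).symm
    have h0 : hop T X (em T.W ℂ (v (I 0))) = ∑ l, cK T.W (hmat v l (I 0)) • em T.W ℂ (v l) :=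
      mC_spec (W := T.W) v (hop T X) (I 0)
    have h4 : xp (CW T) (hop T X (em T.W ℂ (v (I 0)))) (em T.W ℂ (wb v n fun i => I i.succ)) =
        ∑ a : ι, cK T.W (hmat v a (I 0)) •
          em T.W ℂ (wb v (n + 1) (Fin.cons a (fun i => I i.succ) : Fin (n + 2) → ι)) := by
      rw [h0, xp_def, map_sum, Finset.sum_mul]
      refine Finset.sum_congr rfl fun a _ => ?_
      rw [map_smul, smul_mul_assoc]
      congr 1
      exact h3 a _
    have h5 : xp (CW T) (em T.W ℂ (v (I 0)))
        (hop T (pw X n) (em T.W ℂ (wb v n fun i => I i.succ))) =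
        ∑ L : Fin (n + 1) → ι, cK T.W (dpow (hmat v) (n + 1) L fun i => I i.succ) •
          em T.W ℂ (wb v (n + 1) (Fin.cons (I 0) L : Fin (n + 2) → ι)) := by
      rw [hop_wb n, xp_def, map_sum, Finset.mul_sum]
      refine Finset.sum_congr rfl fun L _ => ?_
      rw [map_smul, mul_smul_comm]
      congr 1
      exact h3 _ L
    rw [h1, h4, h5]
    symm
    have h6 : ∑ L : Fin (n + 2) → ι, cK T.W (dpow (hmat v) (n + 1 + 1) L I) •
        em T.W ℂ (wb v (n + 1) L) = ∑ p : ι × (Fin (n + 1) → ι),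
        cK T.W (dpow (hmat v) (n + 1 + 1) (Fin.cons p.1 p.2 : Fin (n + 2) → ι) I) •
          em T.W ℂ (wb v (n + 1) (Fin.cons p.1 p.2 : Fin (n + 2) → ι)) :=
      (Fintype.sum_equiv (Fin.consEquiv fun _ => ι) _ _ fun p => rfl).symm
    refine h6.trans ?_
    rw [Fintype.sum_prod_type]
    have h7 : ∀ (a : ι) (L : Fin (n + 1) → ι),
        cK T.W (dpow (hmat v) (n + 1 + 1) (Fin.cons a L : Fin (n + 2) → ι) I) •
          em T.W ℂ (wb v (n + 1) (Fin.cons a L : Fin (n + 2) → ι)) =
        (if L = (fun i => I i.succ) then cK T.W (hmat v a (I 0)) •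
          em T.W ℂ (wb v (n + 1) (Fin.cons a L : Fin (n + 2) → ι)) else 0) +
        (if a = I 0 then cK T.W (dpow (hmat v) (n + 1) L fun i => I i.succ) •
          em T.W ℂ (wb v (n + 1) (Fin.cons a L : Fin (n + 2) → ι)) else 0) := by
      intro a L
      rw [dpow_cons]
      have e : ∀ (c d : ℂ) (y : (CW T).H (pw X (n + 1))), cK T.W (c + d) • y =
        cK T.W c • y + cK T.W d • y := fun c d y => add_smul (cK T.W c) (cK T.W d) y
      have e0 : ∀ (y : (CW T).H (pw X (n + 1))), cK T.W 0 • y = 0 :=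
        fun y => zero_smul (CW T).K y
      rw [e]
      congr 1
      · split_ifs
        · rfl
        · exact e0 _
      · split_ifs
        · rfl
        · exact e0 _
    simp only [h7, Finset.sum_add_distrib]
    congr 1
    · refine Finset.sum_congr rfl fun a _ => ?_
      rw [Finset.sum_ite_eq' Finset.univ (fun i : Fin (n + 1) => I i.succ),
        if_pos (Finset.mem_univ _)]
    · rw [Finset.sum_comm]
      refine Finset.sum_congr rfl fun L _ => ?_
      rw [Finset.sum_ite_eq' Finset.univ (I 0), if_pos (Finset.mem_univ _)]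

theorem mC_hop_wb (n : ℕ) : mC (W := T.W) (wb v n) (hop T (pw X n)) =
    dpow (hmat v) (n + 1) := mC_of (W := T.W) _ _ _ (hop_wb v n)

theorem bcO_corr (P : 𝒱.Obj) (c : T.W.H (P.prod P)) :
    (bcO (T.W.corr c) : Module.End (CW T).K ((CW T).H P)) = (CW T).corr (em T.W ℂ c) := by
  apply LinearMap.ext
  intro x
  refine tmul_ind (p := fun x => (bcO (T.W.corr c) : Module.End (CW T).K ((CW T).H P)) x =
    (CW T).corr (em T.W ℂ c) x) ?_ ?_ ?_ x
  · rw [map_zero, map_zero]
  · intro x y hx hy; rw [map_add, map_add, hx, hy]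
  · intro l a
    rw [tmul_eq, map_smul, map_smul, em_corr, bcO_em']

/-- An operator commutes with the operator `p - q` iff its class is killed. -/
theorem comm_iff (P : 𝒱.Obj) (c : T.W.H (P.prod P)) :
    (bcO (T.W.corr c) : Module.End (CW T).K ((CW T).H P)) * hop T P =
      hop T P * bcO (T.W.corr c) ↔ hop T _ (em T.W ℂ c) = 0 := by
  rw [bcO_corr]
  constructor
  · intro h
    apply corr_inj
    apply LinearMap.ext
    intro x
    have h1 := LinearMap.congr_fun h x
    rw [Module.End.mul_apply, Module.End.mul_apply] at h1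
    have h2 : hop T P ((CW T).corr (em T.W ℂ c) x) = _ := hop_corr (em T.W ℂ c) x
    rw [h2] at h1
    exact left_eq_add.1 (h1.trans (add_comm _ _))
  · intro h
    apply LinearMap.ext
    intro x
    rw [Module.End.mul_apply, Module.End.mul_apply]
    have h2 : hop T P ((CW T).corr (em T.W ℂ c) x) = _ := hop_corr (em T.W ℂ c) x
    rw [h2, h, corr_zero, LinearMap.zero_apply, zero_add]

theorem bcO_mulLeft (c : T.W.H X) (x : (CW T).H X) :
    (bcO (LinearMap.mulLeft T.W.K c) : Module.End (CW T).K ((CW T).H X)) x =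
      em T.W ℂ c * x := by
  refine tmul_ind (p := fun x => (bcO (LinearMap.mulLeft T.W.K c) :
    Module.End (CW T).K ((CW T).H X)) x = em T.W ℂ c * x) ?_ ?_ ?_ x
  · rw [map_zero, mul_zero]
  · intro x y hx hy; rw [map_add, mul_add, hx, hy]
  · intro l a
    rw [tmul_eq, map_smul, bcO_em', LinearMap.mulLeft_apply, em_mul, mul_smul_comm]

theorem hmat_deg {dg : ι → ℕ} (hv : ∀ i, v i ∈ T.W.gr X (dg i)) (i j : ι)
    (h : hmat v i j ≠ 0) : dg i = dg j := by
  by_contra hne
  apply h
  have h1 : hop T X (em T.W ℂ (v j)) ∈ (CW T).gr X (dg j) := hop_em_gr (hv j)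
  have h2 : hop T X (em T.W ℂ (v j)) = ∑ l, cK T.W (hmat v l j) • em T.W ℂ (v l) :=
    mC_spec (W := T.W) v (hop T X) j
  have h3 : H914.proj ((CW T).isInternal X) (dg j) (hop T X (em T.W ℂ (v j))) =
      ∑ l, cK T.W (if dg l = dg j then hmat v l j else 0) • em T.W ℂ (v l) := by
    rw [h2, map_sum]
    refine Finset.sum_congr rfl fun l _ => ?_
    rw [map_smul]
    by_cases hl : dg l = dg j
    · rw [if_pos hl, ← hl, proj_same _ (em_gr (hv l))]
    · rw [if_neg hl, proj_ne _ (em_gr (hv l)) hl, smul_zero]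
      exact (zero_smul (CW T).K _).symm
  rw [proj_same _ h1, h2] at h3
  have key : ∀ f : ι → ℂ, ∑ l, cK T.W (f l) • em T.W ℂ (v l) = ∑ l, cK T.W (f l) • vC v l :=
    fun f => Finset.sum_congr rfl fun l _ => by rw [vC_apply]
  rw [key, key] at h3
  have h4 := DFunLike.congr_fun (congrArg (vC v).repr h3) i
  have h5 := congrFun ((vC v).repr_sum_self fun l => cK T.W (hmat v l j)) i
  have h6 := congrFun ((vC v).repr_sum_self fun l =>
    cK T.W (if dg l = dg j then hmat v l j else 0)) i
  have h7 : hmat v i j = if dg i = dg j then hmat v i j else 0 := h5.symm.trans (h4.trans h6)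
  rw [h7, if_neg hne]

theorem hmat_eig (hE : Eff T) (hT : Top T) {μ : ℂ} {u : ι → ℂ} (hu : u ≠ 0)
    (h : (hmat v).mulVec u = μ • u) : ∃ z : ℤ, μ = z ∧ |z| ≤ X.dim := by
  have key : ∀ f : ι → ℂ, ∑ l, cK T.W (f l) • em T.W ℂ (v l) = ∑ l, cK T.W (f l) • vC v l :=
    fun f => Finset.sum_congr rfl fun l _ => by rw [vC_apply]
  refine hop_eig (x := ∑ i, cK T.W (u i) • em T.W ℂ (v i)) hE hT ?_ ?_
  · intro h0
    apply hu
    rw [key] at h0
    funext i
    have h3 := DFunLike.congr_fun (congrArg (vC v).repr h0) i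
    rw [map_zero] at h3
    have h4 := congrFun ((vC v).repr_sum_self fun i => cK T.W (u i)) i
    exact h4.symm.trans h3
  · have h1 : hop T X (∑ i, cK T.W (u i) • em T.W ℂ (v i)) =
        ∑ l, cK T.W ((hmat v).mulVec u l) • em T.W ℂ (v l) := by
      rw [map_sum]
      have h2 : ∀ i, hop T X (cK T.W (u i) • em T.W ℂ (v i)) =
          ∑ l, cK T.W (hmat v l i * u i) • em T.W ℂ (v l) := by
        intro i
        have h3 : hop T X (em T.W ℂ (v i)) = ∑ l, cK T.W (hmat v l i) • em T.W ℂ (v l) :=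
          mC_spec (W := T.W) v (hop T X) i
        rw [map_smul, h3, Finset.smul_sum]
        refine Finset.sum_congr rfl fun l _ => ?_
        rw [smul_smul, mul_comm (hmat v l i)]
        rfl
      rw [Finset.sum_congr rfl fun i _ => h2 i, Finset.sum_comm]
      refine Finset.sum_congr rfl fun l _ => ?_
      rw [← Finset.sum_smul]
      rfl
    rw [h1, h, Finset.smul_sum]
    refine Finset.sum_congr rfl fun l _ => ?_
    rw [smul_smul]
    rfl

theorem hop_op (n : ℕ) (a : Module.End T.W.K (T.W.H (pw X n))) :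
    a ∈ (hodgeSys T).Op (pw X n) (pw X n) ↔
      mc v n a * dpow (hmat v) (n + 1) = dpow (hmat v) (n + 1) * mc v n a := by
  obtain ⟨c, hc⟩ := (corr_bijective (W := T.W) (X := pw X n)).2 a
  have hc' : T.W.corr c = a := hc
  subst hc'
  have h1 : T.W.corr c ∈ (hodgeSys T).Op (pw X n) (pw X n) ↔ c ∈ (hodgeSys T).C _ := by
    constructor
    · intro h
      obtain ⟨d, hd, h2⟩ := mem_Op.1 h
      have h3 : d = c := (corr_bijective (W := T.W) (X := pw X n)).1 h2
      rw [← h3]
      exact hd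
    · intro h
      exact Sys.Op.corr (S := hodgeSys T) h
  rw [h1, ← hop_iff, ← comm_iff, ← comm_mat (W := T.W) (wb v n), mC_hop_wb]
  rfl

theorem hmat_div (D : X.Cycles) (hD : X.IsCyc 1 D) :
    hmat v * m1 v (LinearMap.mulLeft T.W.K (T.W.cl X D)) =
      m1 v (LinearMap.mulLeft T.W.K (T.W.cl X D)) * hmat v := by
  have h1 : (bcO (LinearMap.mulLeft T.W.K (T.W.cl X D)) : Module.End (CW T).K ((CW T).H X)) *
      hop T X = hop T X * bcO (LinearMap.mulLeft T.W.K (T.W.cl X D)) := by
    apply LinearMap.ext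
    intro x
    rw [Module.End.mul_apply, Module.End.mul_apply, bcO_mulLeft, bcO_mulLeft, hop_mul,
      hop_hodge (Pool.Agent.Y121.AH.IsHodge.cl hD), zero_mul, zero_add]
  exact ((comm_mat (W := T.W) v _ _).2 h1).symm

/-- **Piece HOP.** -/
theorem t_HOP : S_HOP.{u} := by
  intro k _ 𝒱 ops T hE hT X ι _ _ v dg hv
  exact ⟨hmat v, fun n a => hop_op v n a, fun μ u hu h => hmat_eig v hE hT hu h,
    fun D hD => hmat_div v D hD, fun i j h => hmat_deg v hv i j h⟩

end Pool.Agent.E8helper89.TX
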